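import Pool.Agent.H527R2.UniT

/-!
# Connected spanning subgraphs with a given cyclomatic number: pendant double edges

`cyc j G` is the number of connected spanning subgraphs of `G` with cyclomatic number `j`.
Attaching a new vertex by a double edge gives
`cyc (j+1) G' = 2 * cyc (j+1) G + cyc j G`, which reduces the counting problem for `j` to the one
for `j + 1`.
-/

namespace Pool.Agent.NPC.Y607UC

open Pool.Agent.Uni Pool.Agent.NPC.Cnt Pool.Agent.NPC.Uc

/-- The number of connected spanning subgraphs of `G` with exactly `n + i` edges, where `n` is the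
number of vertices; these are those of cyclomatic number `i + 1`. -/
noncomputable def NN (i : ℕ) (G : MGraph) : ℕ :=
  Nat.card {A : Finset (Fin G.2.length) // A.card = G.1.length + i ∧ SpanConn G A}

theorem NN_zero (G : MGraph) : NN 0 G = unicyclicCount G := rfl

theorem NN_eq_rc (G : MGraph) (hV : G.1 ≠ []) (i : ℕ) :
    NN i G = rc G.1.toFinset G.2 id (G.1.length + i) := card_spanConn G hV _

theorem NN_eq_zero (G : MGraph) {i : ℕ} (h : G.2.length < G.1.length + i) : NN i G = 0 := by
  unfold NN
  rw [Nat.card_eq_zero]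
  left
  refine ⟨?_⟩
  rintro ⟨A, hA1, _⟩
  have : A.card ≤ G.2.length := by simpa using Finset.card_le_univ A
  omega

/-- a vertex of the graph -/
def vtx (G : MGraph) : ℕ := G.1.head?.getD 0

/-- a new vertex -/
def fresh (G : MGraph) : ℕ := G.1.sum + 1

/-- attach a new vertex by a double edge -/
def dig (G : MGraph) : MGraph :=
  (fresh G :: G.1, (vtx G, fresh G) :: (vtx G, fresh G) :: G.2)

theorem fresh_notMem (G : MGraph) : fresh G ∉ G.1 := by
  intro h
  have := List.le_sum_of_mem h
  unfold fresh at this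
  omega

theorem vtx_mem (G : MGraph) (h : G.1 ≠ []) : vtx G ∈ G.1 := by
  unfold vtx
  obtain ⟨V, E⟩ := G
  cases V with
  | nil => exact absurd rfl h
  | cons a V => simp

theorem NN_dig (G : MGraph) (h : WF G) (i : ℕ) :
    NN (i + 1) (dig G) = 2 * NN (i + 1) G + NN i G := by
  have hne := h.1
  have hv : vtx G ∈ G.1.toFinset := by simpa using vtx_mem G hne
  have hz : fresh G ∉ G.1.toFinset := by simpa using fresh_notMem G
  have hS : G.1.toFinset.Nonempty := ⟨_, hv⟩
  have hE : ∀ e ∈ G.2, e.1 ∈ G.1.toFinset ∧ e.2 ∈ G.1.toFinset := by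
    intro e he
    have := h.2.2 e he
    simp [this.1, this.2.1]
  have hvz : vtx G ≠ fresh G := fun e => hz (e ▸ hv)
  rw [NN_eq_rc (dig G) (by simp [dig]), NN_eq_rc G hne, NN_eq_rc G hne]
  have e1 : (dig G).1.length + (i + 1) = (G.1.length + i) + 2 := by simp [dig]; omega
  have e2 : (dig G).1.toFinset = insert (fresh G) G.1.toFinset := by simp [dig]
  rw [e1, e2]
  have e3 : (dig G).2 = (vtx G, fresh G) :: (vtx G, fresh G) :: G.2 := rfl
  rw [e3]
  simp only [rc]
  have hc : mrg (id : ℕ → ℕ) (vtx G) (fresh G) (vtx G)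
      = mrg (id : ℕ → ℕ) (vtx G) (fresh G) (fresh G) := by
    simp [mrg]
  rw [mrg_loop hc]
  have hp : ∀ a, rc (insert (fresh G) G.1.toFinset) G.2 (mrg id (vtx G) (fresh G)) a
      = rc G.1.toFinset G.2 id a := by
    intro a
    refine rc_pendant hv G.2 hE id _ ?_ hc.symm a
    intro u hu
    have : u ≠ fresh G := fun e => hz (e ▸ hu)
    simp [mrg, this]
  rw [hp, hp, rc_isolated hS G.2 hE id (fun u hu e => hz (by rw [show fresh G = u from e.symm]; exact hu))]
  have e4 : G.1.length + i + 1 = G.1.length + (i + 1) := by omega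
  rw [e4]
  omega

theorem wf_of_conn {G : MGraph} (h : IsConnGraph G) : WF G := ⟨h.1, h.2.1, h.2.2.1⟩

theorem conn_dig (G : MGraph) (h : IsConnGraph G) : IsConnGraph (dig G) := by
  obtain ⟨h1, h2, h3, h4⟩ := h
  have hv := vtx_mem G h1
  have hz := fresh_notMem G
  have hvz : vtx G ≠ fresh G := fun e => hz (e ▸ hv)
  refine ⟨by simp [dig], ?_, ?_, ?_⟩
  · exact List.nodup_cons.2 ⟨hz, h2⟩
  · intro e he
    have he' : e = (vtx G, fresh G) ∨ e ∈ G.2 := by
      have : e ∈ (vtx G, fresh G) :: (vtx G, fresh G) :: G.2 := he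
      simp only [List.mem_cons] at this
      tauto
    rcases he' with rfl | he'
    · exact ⟨List.mem_cons_of_mem _ hv, List.mem_cons_self .., hvz⟩
    · obtain ⟨a, b, c⟩ := h3 e he'
      exact ⟨List.mem_cons_of_mem _ a, List.mem_cons_of_mem _ b, c⟩
  · rw [spanConn_univ_iff, conn_iff] at h4 ⊢
    have hmono : ∀ a b, Relation.EqvGen (fun a b => (a, b) ∈ G.2) a b →
        Relation.EqvGen (fun a b => (a, b) ∈ (dig G).2) a b := by
      apply eqvGen_mono'
      intro a b hab
      exact .rel _ _ (List.mem_cons_of_mem _ (List.mem_cons_of_mem _ hab))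
    have hf : Relation.EqvGen (fun a b => (a, b) ∈ (dig G).2) (vtx G) (fresh G) :=
      .rel _ _ (List.mem_cons_self ..)
    have key : ∀ u ∈ (dig G).1, Relation.EqvGen (fun a b => (a, b) ∈ (dig G).2) (vtx G) u := by
      intro u hu
      rcases List.mem_cons.1 (show u ∈ fresh G :: G.1 from hu) with rfl | hu
      · exact hf
      · exact hmono _ _ (h4 _ hv _ hu)
    intro u hu v hv'
    exact .trans _ _ _ (.symm _ _ (key u hu)) (key v hv')

theorem poly_dig {α : Type} [TEnc α] {G : α → MGraph} (hG : Poly G) :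
    Poly (fun a => dig (G a)) := by
  have hV : Poly (fun a => (G a).1) := Poly.fst hG
  have hE : Poly (fun a => (G a).2) := Poly.snd hG
  have hf : Poly (fun a => fresh (G a)) := Poly.succ (Poly.sum hV)
  have hv : Poly (fun a => vtx (G a)) := Poly.head?_getD hV 0
  have he : Poly (fun a => (vtx (G a), fresh (G a))) := Poly.pair hv hf
  exact Poly.pair (Poly.cons hf hV) (Poly.cons he (Poly.cons he hE))

/-! ### nonadaptive reductions from `#SAT` -/

/-- connected graphs with at least `n + i` edges -/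
def OKi (i : ℕ) (G : MGraph) : Prop := IsConnGraph G ∧ G.1.length + i ≤ G.2.length

/-- the number of satisfying assignments is computed in polynomial time from the values of `f` on
a list of graphs satisfying `P`, the list being computed in polynomial time -/
def Red (P : MGraph → Prop) (f : MGraph → ℕ) : Prop :=
  ∃ (qs : CNF ℕ → List MGraph) (post : CNF ℕ × List ℕ → ℕ), Poly qs ∧ Poly post ∧
    (∀ φ, ∀ G ∈ qs φ, P G) ∧ ∀ φ, satCount φ = post (φ, (qs φ).map f)

theorem red_zero : Red (OKi 0) (NN 0) := by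
  refine ⟨Pool.Agent.NPC.Uc.qs, Pool.Agent.NPC.Uc.post, poly_qs, poly_post, ?_, satCount_eq⟩
  intro φ G hG
  obtain ⟨t, _, rfl⟩ := List.mem_map.mp hG
  exact qryOK_ok φ t

/-- the query replacing `G` -/
def sb (i : ℕ) (G : MGraph) : MGraph :=
  if G.1.length + (i + 1) ≤ G.2.length then G else dig G

/-- the value at `G` from the two answers -/
def comb (i : ℕ) (G : MGraph) (a b : ℕ) : ℕ :=
  if G.1.length + (i + 1) ≤ G.2.length then b - 2 * a else b

theorem comb_eq (i : ℕ) (G : MGraph) (h : IsConnGraph G) :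
    comb i G (NN (i + 1) (sb i G)) (NN (i + 1) (dig G)) = NN i G := by
  have h1 := NN_dig G (wf_of_conn h) i
  unfold comb sb
  split_ifs with hc
  · omega
  · rw [h1, NN_eq_zero G (by omega)]
    omega

theorem red_succ {i : ℕ} (h : Red (OKi i) (NN i)) : Red (OKi (i + 1)) (NN (i + 1)) := by
  obtain ⟨qs, post, hqs, hpost, hok, hsat⟩ := h
  refine ⟨fun φ => (qs φ).map (sb i) ++ (qs φ).map dig,
    fun s => post (s.1, (qs s.1).zipIdx.map fun x =>
      comb i x.1 (s.2.getD x.2 0) (s.2.getD ((qs s.1).length + x.2) 0)), ?_, ?_, ?_, ?_⟩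
  · refine Poly.append ?_ ?_
    · refine Poly.map (F := fun _ G => sb i G) hqs ?_
      have hG : Poly (fun y : CNF ℕ × MGraph => y.2) := Poly.snd Poly.id
      exact Poly.ite (Poly.decide_le (Poly.add (Poly.length (Poly.fst hG)) (Poly.const (i + 1)))
        (Poly.length (Poly.snd hG))) hG (poly_dig hG)
    · exact Poly.map (F := fun _ G => dig G) hqs (poly_dig (Poly.snd Poly.id))
  · have hφ : Poly (fun s : CNF ℕ × List ℕ => s.1) := Poly.fst Poly.id
    refine hpost.comp (Poly.pair hφ ?_)
    refine Poly.map (F := fun (s : CNF ℕ × List ℕ) (x : MGraph × ℕ) =>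
      comb i x.1 (s.2.getD x.2 0) (s.2.getD ((qs s.1).length + x.2) 0))
      (Poly.zipIdx (hqs.comp hφ)) ?_
    have hs : Poly (fun y : (CNF ℕ × List ℕ) × (MGraph × ℕ) => y.1) := Poly.fst Poly.id
    have hx : Poly (fun y : (CNF ℕ × List ℕ) × (MGraph × ℕ) => y.2) := Poly.snd Poly.id
    have hG : Poly (fun y : (CNF ℕ × List ℕ) × (MGraph × ℕ) => y.2.1) := Poly.fst hx
    have ht : Poly (fun y : (CNF ℕ × List ℕ) × (MGraph × ℕ) => y.2.2) := Poly.snd hx
    have hL : Poly (fun y : (CNF ℕ × List ℕ) × (MGraph × ℕ) => y.1.2) := Poly.snd hs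
    have hq : Poly (fun y : (CNF ℕ × List ℕ) × (MGraph × ℕ) => (qs y.1.1).length) :=
      Poly.length (hqs.comp (Poly.fst hs))
    have ha : Poly (fun y : (CNF ℕ × List ℕ) × (MGraph × ℕ) => y.1.2.getD y.2.2 0) :=
      Poly.getD hL ht (Poly.const 0)
    have hb : Poly (fun y : (CNF ℕ × List ℕ) × (MGraph × ℕ) =>
        y.1.2.getD ((qs y.1.1).length + y.2.2) 0) := Poly.getD hL (Poly.add hq ht) (Poly.const 0)
    exact Poly.ite (Poly.decide_le (Poly.add (Poly.length (Poly.fst hG)) (Poly.const (i + 1)))
        (Poly.length (Poly.snd hG))) (Poly.sub hb (Poly.mul (Poly.const 2) ha)) hb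
  · intro φ G hG
    have hd : ∀ G ∈ qs φ, OKi (i + 1) (dig G) := by
      intro G hG
      obtain ⟨h1, h2⟩ := hok φ G hG
      refine ⟨conn_dig G h1, ?_⟩
      simp only [dig, List.length_cons]
      omega
    rcases List.mem_append.1 hG with hG | hG
    · obtain ⟨G', hG', rfl⟩ := List.mem_map.1 hG
      unfold sb
      split_ifs with hc
      · exact ⟨(hok φ G' hG').1, hc⟩
      · exact hd G' hG'
    · obtain ⟨G', hG', rfl⟩ := List.mem_map.1 hG
      exact hd G' hG'
  · intro φ
    rw [hsat φ]
    congr 2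
    apply List.ext_getElem
    · simp
    · intro t h1 h2
      have ht : t < (qs φ).length := by simpa using h1
      rw [List.getElem_map, List.getElem_map, List.getElem_zipIdx]
      simp only [Nat.zero_add]
      have e1 : (((qs φ).map (sb i) ++ (qs φ).map dig).map (NN (i + 1))).getD t 0
          = NN (i + 1) (sb i (qs φ)[t]) := by
        rw [List.getD_eq_getElem?_getD, List.getElem?_map, List.getElem?_append_left (by simpa using ht)]
        simp [ht]
      have e2 : (((qs φ).map (sb i) ++ (qs φ).map dig).map (NN (i + 1))).getD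
          ((qs φ).length + t) 0 = NN (i + 1) (dig (qs φ)[t]) := by
        rw [List.getD_eq_getElem?_getD, List.getElem?_map, List.getElem?_append_right (by simp)]
        simp [ht]
      rw [e1, e2]
      exact (comb_eq i _ (hok φ _ (List.getElem_mem ht)).1).symm

theorem red_all (i : ℕ) : Red (OKi i) (NN i) := by
  induction i with
  | zero => exact red_zero
  | succ i ih => exact red_succ ih

theorem NN_size (i : ℕ) (G : MGraph) : (NN i G).size ≤ G.2.length + 1 := by
  rw [Nat.size_le]
  have h : NN i G ≤ 2 ^ G.2.length := by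
    unfold NN
    calc Nat.card {A : Finset (Fin G.2.length) // A.card = G.1.length + i ∧ SpanConn G A}
        ≤ Nat.card (Finset (Fin G.2.length)) :=
          Nat.card_le_card_of_injective Subtype.val Subtype.val_injective
      _ = 2 ^ G.2.length := by simp
  have : 2 ^ G.2.length < 2 ^ (G.2.length + 1) := Nat.pow_lt_pow_right (by norm_num) (by omega)
  omega

theorem Fcoeff_eq_NN (i : ℕ) (G : MGraph) (h : G.1.length + i ≤ G.2.length) :
    Fcoeff G (G.2.length - (G.1.length + i)) = NN i G := by
  classical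
  unfold NN Fcoeff
  have h1 : ∀ D : Finset (Fin G.2.length), Dᶜ.card + D.card = G.2.length := by
    intro D
    rw [Finset.card_compl, Fintype.card_fin]
    have : D.card ≤ G.2.length := by simpa using Finset.card_le_univ D
    omega
  refine Nat.card_congr ⟨fun D => ⟨D.1ᶜ, ?_, D.2.2⟩, fun A => ⟨A.1ᶜ, ?_, ?_⟩, ?_, ?_⟩
  · have := h1 D.1; have := D.2.1; omega
  · have := h1 A.1; have := A.2.1; omega
  · rw [compl_compl]; exact A.2.2
  · intro D; simp
  · intro A; simp

/-- hardness from a reduction -/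
theorem hard_of_red {P : MGraph → Prop} {i : ℕ} (hred : Red P (NN i)) {g : List Bool → ℕ}
    (hg : ∀ G : MGraph, P G → g (bits G) = NN i G) : SharpPHard g := by
  obtain ⟨qs, post, hqs, hpost, hok, hsat⟩ := hred
  refine sharpPHard_of_satCount' (g' := NN i) qs post hqs hpost
    (fun φ G hG => hg G (hok φ G hG)) hsat (Polynomial.X + Polynomial.C 1) ?_
  intro φ G _
  have h1 := NN_size i G
  have h2 := length_lt_sz G.2
  obtain ⟨V, E⟩ := G
  simp only [sz_pair, Polynomial.eval_add, Polynomial.eval_X, Polynomial.eval_C] at *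
  omega

end Pool.Agent.NPC.Y607UC
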