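import Pool.Agent.Y607.UC.Str

/-!
# Connected spanning subgraphs of a given cyclomatic number: hardness on simple bipartite graphs,
and membership in `#P`
-/

namespace Pool.Agent.NPC.Y607UC

open Pool.Agent.Uni Pool.Agent.NPC.Cnt Pool.Agent.NPC.Uc

/-- `A` has `2 ^ m` as a factor times the wanted value -/
theorem NN_from_sub2 (G : MGraph) (h : WF G) (i : ℕ) :
    2 ^ (G.1.length + i) * NN i (sub2 G) / 2 ^ G.2.length = NN i G := by
  rw [NN_sub2 G h i, Nat.mul_div_cancel_left _ (by positivity)]

/-- connected simple bipartite graphs with at least `n + i` edges -/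
def OKs (i : ℕ) (G : MGraph) : Prop := OKi i G ∧ SimpleBip G

theorem red_simple {i : ℕ} (h : Red (OKi i) (NN i)) : Red (OKs i) (NN i) := by
  obtain ⟨qs, post, hqs, hpost, hok, hsat⟩ := h
  refine ⟨fun φ => (qs φ).map sub2,
    fun s => post (s.1, (qs s.1).zipIdx.map fun x =>
      2 ^ (x.1.1.length + i) * s.2.getD x.2 0 / 2 ^ x.1.2.length), ?_, ?_, ?_, ?_⟩
  · exact Poly.map (F := fun _ G => sub2 G) hqs (poly_sub2 (Poly.snd Poly.id))
  · have hφ : Poly (fun s : CNF ℕ × List ℕ => s.1) := Poly.fst Poly.id
    refine hpost.comp (Poly.pair hφ ?_)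
    refine Poly.map (F := fun (s : CNF ℕ × List ℕ) (x : MGraph × ℕ) =>
      2 ^ (x.1.1.length + i) * s.2.getD x.2 0 / 2 ^ x.1.2.length)
      (Poly.zipIdx (hqs.comp hφ)) ?_
    have hs : Poly (fun y : (CNF ℕ × List ℕ) × (MGraph × ℕ) => y.1) := Poly.fst Poly.id
    have hx : Poly (fun y : (CNF ℕ × List ℕ) × (MGraph × ℕ) => y.2) := Poly.snd Poly.id
    have hG : Poly (fun y : (CNF ℕ × List ℕ) × (MGraph × ℕ) => y.2.1) := Poly.fst hx
    have ht : Poly (fun y : (CNF ℕ × List ℕ) × (MGraph × ℕ) => y.2.2) := Poly.snd hx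
    have hL : Poly (fun y : (CNF ℕ × List ℕ) × (MGraph × ℕ) => y.1.2) := Poly.snd hs
    have ha : Poly (fun y : (CNF ℕ × List ℕ) × (MGraph × ℕ) => y.1.2.getD y.2.2 0) :=
      Poly.getD hL ht (Poly.const 0)
    have hn : UPoly (fun y : (CNF ℕ × List ℕ) × (MGraph × ℕ) => y.2.1.1.length + i) :=
      UPoly.add (UPoly.length (Poly.fst hG)) (UPoly.const i)
    have hm : UPoly (fun y : (CNF ℕ × List ℕ) × (MGraph × ℕ) => y.2.1.2.length) :=
      UPoly.length (Poly.snd hG)
    exact Poly.div (Poly.mul (poly_upow hn (Poly.const 2)) ha) (poly_upow hm (Poly.const 2))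
  · intro φ G hG
    obtain ⟨G', hG', rfl⟩ := List.mem_map.1 hG
    obtain ⟨h1, h2⟩ := hok φ G' hG'
    refine ⟨⟨conn_sub2 G' h1, ?_⟩, simpleBip_sub2 G' (wf_of_conn h1)⟩
    rw [sub2_len, sub2_len2]
    omega
  · intro φ
    rw [hsat φ]
    congr 2
    apply List.ext_getElem
    · simp
    · intro t h1 h2
      have ht : t < (qs φ).length := by simpa using h1
      rw [List.getElem_map, List.getElem_map, List.getElem_zipIdx]
      simp only [Nat.zero_add]
      have e1 : (((qs φ).map sub2).map (NN i)).getD t 0 = NN i (sub2 (qs φ)[t]) := by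
        rw [List.getD_eq_getElem?_getD, List.getElem?_map, List.getElem?_map]
        simp [ht]
      rw [e1]
      exact (NN_from_sub2 _ (wf_of_conn (hok φ _ (List.getElem_mem ht)).1) i).symm

/-- The number of spanning connected subgraphs of cyclomatic number `j` of a multigraph `G` with
`n` vertices: the number of sets of exactly `n - 1 + j` edges forming a connected spanning
subgraph. -/
noncomputable def cycCount (j : ℕ) (G : MGraph) : ℕ :=
  Nat.card {A : Finset (Fin G.2.length) // A.card + 1 = G.1.length + j ∧ SpanConn G A}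

theorem cycCount_succ (i : ℕ) (G : MGraph) : cycCount (i + 1) G = NN i G := by
  unfold cycCount NN
  refine Nat.card_congr (Equiv.subtypeEquivRight fun A => ?_)
  constructor
  · rintro ⟨h1, h2⟩; exact ⟨by omega, h2⟩
  · rintro ⟨h1, h2⟩; exact ⟨by omega, h2⟩

/-! ### Membership -/

/-- the verifier -/
def verI (i : ℕ) (G : MGraph) (w : List Bool) : Bool :=
  wfB G && (decide (w.length = G.2.length) &&
    (decide ((w.filter fun b => b).length = G.1.length + i) && allEq (subs (sel w G.2)) G.1))

theorem poly_verI (i : ℕ) : Poly (fun x : MGraph × List Bool => verI i x.1 x.2) := by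
  have hG : Poly (fun x : MGraph × List Bool => x.1) := Poly.fst Poly.id
  have hw : Poly (fun x : MGraph × List Bool => x.2) := Poly.snd Poly.id
  have hsel : Poly (fun x : MGraph × List Bool => sel x.2 x.1.2) := by
    refine Poly.congr ?_ (fun x => (sel_eq x.2 x.1.2).symm)
    exact Poly.map (F := fun _ (y : Bool × (ℕ × ℕ)) => y.2)
      (Poly.filter (p := fun _ (y : Bool × (ℕ × ℕ)) => y.1) (Poly.zip hw (Poly.snd hG))
        (Poly.fst (Poly.snd Poly.id))) (Poly.snd (Poly.snd Poly.id))
  unfold verI
  exact Poly.and (poly_wfB hG) (Poly.and (Poly.decide_eq (Poly.length hw)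
    (Poly.length (Poly.snd hG))) (Poly.and (Poly.decide_eq
    (Poly.length (Poly.filter (p := fun _ b => b) hw (Poly.snd Poly.id)))
      (Poly.add (Poly.length (Poly.fst hG)) (Poly.const i)))
      (poly_allEq (poly_subs hsel) (Poly.fst hG))))

theorem NN_zero_of_not_conn (i : ℕ) (G : MGraph) (hWF : WF G) (h : ¬ IsConnGraph G) :
    NN i G = 0 := by
  unfold NN
  rw [Nat.card_eq_zero]
  left
  refine ⟨?_⟩
  rintro ⟨A, _, hA⟩
  exact h ⟨hWF.1, hWF.2.1, hWF.2.2, spanConn_mono G (Finset.subset_univ A) hA⟩

theorem count_eq_verI (i : ℕ) (G : MGraph) :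
    Nat.card {w : List Bool // verI i G w = true} =
      open Classical in if IsConnGraph G then NN i G else 0 := by
  classical
  by_cases hWF : WF G
  · have hne : G.1 ≠ [] := hWF.1
    have hS : G.1.toFinset.Nonempty := by
      obtain ⟨x, hx⟩ := List.exists_mem_of_ne_nil _ hne
      exact ⟨x, by simpa using hx⟩
    have h1 : Nat.card {w : List Bool // verI i G w = true} = NN i G := by
      rw [NN_eq_rc G hne, rc_eq_masks]
      refine Nat.card_congr (Equiv.subtypeEquivRight fun w => ?_)
      unfold verI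
      rw [Bool.and_eq_true, wfB_iff, Bool.and_eq_true, decide_eq_true_eq, Bool.and_eq_true,
        decide_eq_true_eq, allEq_iff, card_image_eq_one hS, labs_id]
      have hc : (w.filter fun b => b).length = w.count true := by
        rw [List.count_eq_length_filter]
        congr 1
        apply List.filter_congr
        intro b _
        cases b <;> rfl
      rw [hc]
      simp only [List.mem_toFinset]
      tauto
    rw [h1]
    split_ifs with h
    · rfl
    · exact NN_zero_of_not_conn i G hWF h
  · have h : ¬ IsConnGraph G := fun h => hWF ⟨h.1, h.2.1, h.2.2.1⟩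
    rw [if_neg h, Nat.card_eq_zero]
    left
    refine ⟨?_⟩
    rintro ⟨w, hw⟩
    unfold verI at hw
    rw [Bool.and_eq_true, wfB_iff] at hw
    exact hWF hw.1

open Classical in
theorem mem_sharpP_NN (i : ℕ) : SharpP (strFn fun G : MGraph =>
    if IsConnGraph G then NN i G else 0) := by
  have h := sharpP_typed (α := MGraph) (γ := List Bool) (verI i) (poly_verI i)
    (Polynomial.C 4 * Polynomial.X + Polynomial.C 1) (by
      intro G w hw
      unfold verI at hw
      rw [Bool.and_eq_true, Bool.and_eq_true, decide_eq_true_eq] at hw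
      have h1 := hw.2.1
      have h2 := sz_listBool_le w
      have h3 := length_lt_sz G.2
      obtain ⟨V, E⟩ := G
      simp only [sz_pair, Polynomial.eval_add, Polynomial.eval_mul, Polynomial.eval_X,
        Polynomial.eval_C] at *
      omega)
  have h2 : (fun G : MGraph => Nat.card {w : List Bool // verI i G w = true})
      = fun G => if IsConnGraph G then NN i G else 0 := by
    funext G
    exact count_eq_verI i G
  rw [← h2]
  exact h

open Classical in
theorem main (j : ℕ) (hj : 1 ≤ j) :
    (∀ g : List Bool → ℕ,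
      (∀ G : MGraph, IsConnGraph G → SimpleBip G → G.1.length + j ≤ G.2.length + 1 →
        g (bits G) = Fcoeff G (G.2.length + 1 - (G.1.length + j))) → SharpPHard g) ∧
    (∀ G : MGraph, G.1.length + j ≤ G.2.length + 1 →
      Fcoeff G (G.2.length + 1 - (G.1.length + j)) = cycCount j G) ∧
    SharpP (strFn fun G : MGraph => if IsConnGraph G then cycCount j G else 0) := by
  obtain ⟨i, rfl⟩ : ∃ i, j = i + 1 := ⟨j - 1, by omega⟩
  have he : ∀ G : MGraph, G.2.length + 1 - (G.1.length + (i + 1))
      = G.2.length - (G.1.length + i) := fun G => by omega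
  refine ⟨fun g hg => hard_of_red (red_simple (red_all i)) ?_, fun G hG => ?_, ?_⟩
  · rintro G ⟨⟨h1, h2⟩, h3⟩
    rw [hg G h1 h3 (by omega), he, Fcoeff_eq_NN i G h2]
  · rw [he, Fcoeff_eq_NN i G (by omega), cycCount_succ]
  · have h := mem_sharpP_NN i
    have h2 : (fun G : MGraph => if IsConnGraph G then NN i G else 0)
        = fun G => if IsConnGraph G then cycCount (i + 1) G else 0 := by
      funext G
      rw [cycCount_succ]
    rw [← h2]
    exact h

end Pool.Agent.NPC.Y607UC
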