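import Pool.Agent.Y607.UC.Dig

/-!
# Subdividing all edges

If every edge of a connected multigraph with `n` vertices and `m` edges is subdivided once, the
number of connected spanning subgraphs of cyclomatic number `i + 1` is multiplied by
`2 ^ (m - n - i)`.  The new graph is simple and bipartite.
-/

namespace Pool.Agent.NPC.Y607UC

open Pool.Agent.Uni Pool.Agent.NPC.Cnt Pool.Agent.NPC.Uc

/-- the edges of the subdivision, new vertices `k, k+1, ...` -/
def str : ℕ → List (ℕ × ℕ) → List (ℕ × ℕ)
  | _, [] => []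
  | k, e :: E => (e.2, k) :: (e.1, k) :: str (k + 1) E

theorem str_length : ∀ (E : List (ℕ × ℕ)) (k : ℕ), (str k E).length = 2 * E.length := by
  intro E
  induction E with
  | nil => intro k; rfl
  | cons e E ih => intro k; simp only [str, List.length_cons, ih]; omega

theorem mem_str : ∀ (E : List (ℕ × ℕ)) (k : ℕ) (x : ℕ × ℕ), x ∈ str k E →
    ∃ e ∈ E, (x.1 = e.1 ∨ x.1 = e.2) ∧ k ≤ x.2 ∧ x.2 < k + E.length := by
  intro E
  induction E with
  | nil => intro k x h; simp [str] at h
  | cons e E ih =>
    intro k x h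
    simp only [str, List.mem_cons] at h
    rcases h with rfl | rfl | h
    · exact ⟨e, List.mem_cons_self .., Or.inr rfl, by simp⟩
    · exact ⟨e, List.mem_cons_self .., Or.inl rfl, by simp⟩
    · obtain ⟨e', he', h1, h2, h3⟩ := ih (k + 1) x h
      refine ⟨e', List.mem_cons_of_mem _ he', h1, by omega, ?_⟩
      simp only [List.length_cons]; omega

theorem insert_Ico (S : Finset ℕ) (k f : ℕ) :
    S ∪ Finset.Ico k (k + (f + 1)) = insert k (S ∪ Finset.Ico (k + 1) (k + 1 + f)) := by
  ext x
  simp only [Finset.mem_union, Finset.mem_Ico, Finset.mem_insert]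
  by_cases hx : x ∈ S
  · simp [hx]
  · simp only [hx, false_or]
    omega

theorem rc_str {S : Finset ℕ} (hS : S.Nonempty) : ∀ (E : List (ℕ × ℕ)),
    (∀ e ∈ E, e.1 ∈ S ∧ e.2 ∈ S) → ∀ (k : ℕ) (c : ℕ → ℕ), (∀ u ∈ S, u < k) → (∀ u ∈ S, c u < k) →
    (∀ z, k ≤ z → c z = z) → ∀ a,
    2 ^ a * rc (S ∪ Finset.Ico k (k + E.length)) (str k E) c (a + E.length)
      = 2 ^ E.length * rc S E c a := by
  intro E
  induction E with
  | nil =>
    intro _ k c _ _ _ a
    simp only [List.length_nil, Nat.add_zero, Finset.Ico_self, Finset.union_empty, str]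
    rcases a with _ | a
    · rfl
    · simp [rc]
  | cons e E ih =>
    intro hE k c hk hck hcz a
    have hE' := fun e' he' => hE e' (List.mem_cons_of_mem _ he')
    obtain ⟨hu, hv⟩ := hE e (List.mem_cons_self ..)
    obtain ⟨u, v⟩ := e
    simp only at hu hv
    set f := E.length with hf
    set S' := S ∪ Finset.Ico (k + 1) (k + 1 + f) with hS'
    have hlen : ((u, v) :: E).length = f + 1 := rfl
    rw [hlen, insert_Ico, ← hS']
    have hSS : ∀ x ∈ S, x ∈ S' := fun x hx => Finset.mem_union_left _ hx
    have hS'ne : S'.Nonempty := ⟨u, hSS u hu⟩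
    have hF : ∀ x ∈ str (k + 1) E, x.1 ∈ S' ∧ x.2 ∈ S' := by
      intro x hx
      obtain ⟨e', he', h1, h2, h3⟩ := mem_str E (k + 1) x hx
      refine ⟨?_, ?_⟩
      · rcases h1 with h1 | h1
        · rw [h1]; exact hSS _ (hE' e' he').1
        · rw [h1]; exact hSS _ (hE' e' he').2
      · rw [hS', Finset.mem_union, Finset.mem_Ico]
        exact Or.inr ⟨h2, h3⟩
    have hckk : c k = k := hcz k le_rfl
    -- labels of old vertices of `S'` differ from `k`
    have hne : ∀ x ∈ S', c x ≠ k := by
      intro x hx
      rw [hS', Finset.mem_union, Finset.mem_Ico] at hx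
      rcases hx with hx | hx
      · exact (hck x hx).ne
      · rw [hcz x (by omega)]; omega
    have hxk : ∀ x ∈ S', x ≠ k := by
      intro x hx e
      exact hne x hx (by rw [e]; exact hckk)
    -- the merged labelings
    have m1 : ∀ w : ℕ, ∀ x ∈ S', mrg c w k x = c x := by
      intro w x hx
      unfold mrg
      rw [hckk, if_neg (hne x hx)]
    have m1k : ∀ w : ℕ, mrg c w k k = c w := by
      intro w; unfold mrg; simp
    have m2 : ∀ x ∈ S', mrg (mrg c v k) u k x = mrg c u v x := by
      intro x hx
      have a1 := m1 v x hx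
      have a2 := m1 v u (hSS u hu)
      show (if mrg c v k x = mrg c v k k then mrg c v k u else mrg c v k x)
        = if c x = c v then c u else c x
      rw [a1, a2, m1k]
    have m2k : mrg (mrg c v k) u k k = mrg (mrg c v k) u k u := by
      show (if mrg c v k k = mrg c v k k then mrg c v k u else mrg c v k k)
        = if mrg c v k u = mrg c v k k then mrg c v k u else mrg c v k u
      simp
    have p1 : ∀ w ∈ S, ∀ b, rc (insert k S') (str (k + 1) E) (mrg c w k) b
        = rc S' (str (k + 1) E) c b := by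
      intro w hw b
      refine rc_pendant (hSS w hw) _ hF c _ (m1 w) ?_ b
      rw [m1k, m1 w w (hSS w hw)]
    have p2 : ∀ b, rc (insert k S') (str (k + 1) E) (mrg (mrg c v k) u k) b
        = rc S' (str (k + 1) E) (mrg c u v) b :=
      fun b => rc_pendant (hSS u hu) _ hF _ _ m2 m2k b
    have p0 : ∀ b, rc (insert k S') (str (k + 1) E) c b = 0 :=
      fun b => rc_isolated hS'ne _ hF c (fun x hx => by rw [hckk]; exact hne x hx) b
    -- the induction hypotheses
    have ih1 := ih hE' (k + 1) c (fun x hx => (hk x hx).trans (Nat.lt_succ_self k))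
      (fun x hx => (hck x hx).trans (Nat.lt_succ_self k)) (fun z hz => hcz z (by omega))
    have hmlt : ∀ x ∈ S, mrg c u v x < k := by
      intro x hx
      unfold mrg
      split_ifs
      · exact hck u hu
      · exact hck x hx
    have hmz : ∀ z, k + 1 ≤ z → mrg c u v z = z := by
      intro z hz
      have h1 := hck v hv
      have h2 := hcz z (by omega)
      unfold mrg
      rw [if_neg (by omega), h2]
    have ih2 := ih hE' (k + 1) (mrg c u v) (fun x hx => (hk x hx).trans (Nat.lt_succ_self k))
      (fun x hx => (hmlt x hx).trans (Nat.lt_succ_self k)) hmz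
    rw [← hS'] at ih1 ih2
    have hstr : str k ((u, v) :: E) = (v, k) :: (u, k) :: str (k + 1) E := rfl
    rw [hstr]
    rcases a with _ | a
    · -- `a = 0`
      have hR : rc S ((u, v) :: E) c 0 = rc S E c 0 := rfl
      have ih10 := ih1 0
      simp only [Nat.zero_add, pow_zero, one_mul] at ih10 ⊢
      rcases f with _ | f'
      · simp only [rc, Nat.zero_add]
        rw [p0, p1 u hu, p1 v hv]
        simp only [Nat.zero_add, pow_zero, one_mul, pow_one] at ih10 ⊢
        omega
      · -- too few edges after two selections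
        have hz : rc S' (str (k + 1) E) (mrg c u v) f' = 0 := by
          apply rc_lt _ _ hF
          have hsub : insert (mrg c u v u) (Finset.Ico (k + 1) (k + 1 + (f' + 1)))
              ⊆ S'.image (mrg c u v) := by
            intro y hy
            rw [Finset.mem_insert, Finset.mem_Ico] at hy
            rcases hy with rfl | hy
            · exact Finset.mem_image_of_mem _ (hSS u hu)
            · rw [Finset.mem_image]
              exact ⟨y, by rw [hS', Finset.mem_union, Finset.mem_Ico]; exact Or.inr hy,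
                hmz y hy.1⟩
          have hcard := Finset.card_le_card hsub
          rw [Finset.card_insert_of_notMem (by
            rw [Finset.mem_Ico]
            have := hmlt u hu
            omega), Nat.card_Ico] at hcard
          omega
        have e1 : rc (insert k S') ((v, k) :: (u, k) :: str (k + 1) E) c (f' + 1 + 1)
            = rc (insert k S') (str (k + 1) E) c (f' + 2)
              + rc (insert k S') (str (k + 1) E) (mrg c u k) (f' + 1)
              + (rc (insert k S') (str (k + 1) E) (mrg c v k) (f' + 1)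
              + rc (insert k S') (str (k + 1) E) (mrg (mrg c v k) u k) f') := rfl
        rw [e1, p0, p1 u hu, p1 v hv, p2, hz, hR]
        rw [pow_succ]
        rw [ih10]
        ring
    · have e0 : a + 1 + (f + 1) = (a + f) + 2 := by ring
      have e1 : rc (insert k S') ((v, k) :: (u, k) :: str (k + 1) E) c ((a + f) + 2)
            = rc (insert k S') (str (k + 1) E) c (a + f + 2)
              + rc (insert k S') (str (k + 1) E) (mrg c u k) (a + f + 1)
              + (rc (insert k S') (str (k + 1) E) (mrg c v k) (a + f + 1)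
              + rc (insert k S') (str (k + 1) E) (mrg (mrg c v k) u k) (a + f)) := rfl
      have hR : rc S ((u, v) :: E) c (a + 1) = rc S E c (a + 1) + rc S E (mrg c u v) a := rfl
      rw [e0, e1, p0, p1 u hu, p1 v hv, p2, hR]
      have j1 := ih1 (a + 1)
      have j2 := ih2 a
      have e2 : a + 1 + f = a + f + 1 := by ring
      rw [e2] at j1
      calc 2 ^ (a + 1) * (0 + rc S' (str (k + 1) E) c (a + f + 1)
              + (rc S' (str (k + 1) E) c (a + f + 1)
              + rc S' (str (k + 1) E) (mrg c u v) (a + f)))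
          = 2 * (2 ^ (a + 1) * rc S' (str (k + 1) E) c (a + f + 1))
            + 2 * (2 ^ a * rc S' (str (k + 1) E) (mrg c u v) (a + f)) := by ring
        _ = 2 * (2 ^ f * rc S E c (a + 1)) + 2 * (2 ^ f * rc S E (mrg c u v) a) := by
            rw [j1, j2]
        _ = _ := by ring

/-- the graph with all edges subdivided -/
def sub2 (G : MGraph) : MGraph :=
  (G.1 ++ (List.range G.2.length).map (fun t => fresh G + t), str (fresh G) G.2)

theorem lt_fresh (G : MGraph) {u : ℕ} (h : u ∈ G.1) : u < fresh G := by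
  have := List.le_sum_of_mem h
  unfold fresh
  omega

theorem sub2_toFinset (G : MGraph) : (sub2 G).1.toFinset
    = G.1.toFinset ∪ Finset.Ico (fresh G) (fresh G + G.2.length) := by
  ext x
  simp only [sub2, List.mem_toFinset, List.mem_append, List.mem_map, List.mem_range,
    Finset.mem_union, Finset.mem_Ico]
  constructor
  · rintro (h | ⟨t, ht, rfl⟩)
    · exact Or.inl h
    · exact Or.inr ⟨by omega, by omega⟩
  · rintro (h | h)
    · exact Or.inl h
    · exact Or.inr ⟨x - fresh G, by omega, by omega⟩

theorem sub2_len (G : MGraph) : (sub2 G).1.length = G.1.length + G.2.length := by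
  simp [sub2]

theorem sub2_len2 (G : MGraph) : (sub2 G).2.length = 2 * G.2.length := str_length _ _

theorem NN_sub2 (G : MGraph) (h : WF G) (i : ℕ) :
    2 ^ (G.1.length + i) * NN i (sub2 G) = 2 ^ G.2.length * NN i G := by
  have hne := h.1
  have hS : G.1.toFinset.Nonempty := ⟨vtx G, by simpa using vtx_mem G hne⟩
  have hE : ∀ e ∈ G.2, e.1 ∈ G.1.toFinset ∧ e.2 ∈ G.1.toFinset := by
    intro e he
    have := h.2.2 e he
    simp [this.1, this.2.1]
  have hlt : ∀ u ∈ G.1.toFinset, u < fresh G := fun u hu => lt_fresh G (by simpa using hu)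
  have key := rc_str hS G.2 hE (fresh G) id hlt hlt (fun z _ => rfl) (G.1.length + i)
  rw [NN_eq_rc (sub2 G) (by
    intro h0
    exact hne (List.append_eq_nil_iff.1 h0).1), NN_eq_rc G hne, sub2_toFinset, sub2_len]
  have e : G.1.length + G.2.length + i = G.1.length + i + G.2.length := by ring
  rw [e]
  exact key

/-- simple bipartite graphs: no two edges join the same two vertices, and the vertices can be
coloured with two colours -/
def SimpleBip (G : MGraph) : Prop :=
  (G.2.map fun e => s(e.1, e.2)).Nodup ∧ ∃ f : ℕ → Bool, ∀ e ∈ G.2, f e.1 ≠ f e.2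

theorem str_nodup : ∀ (E : List (ℕ × ℕ)) (k : ℕ), (∀ e ∈ E, e.1 ≠ e.2 ∧ e.1 < k ∧ e.2 < k) →
    ((str k E).map fun e => s(e.1, e.2)).Nodup := by
  intro E
  induction E with
  | nil => intro k _; simp [str]
  | cons e E ih =>
    intro k h
    have h0 := h e (List.mem_cons_self ..)
    have h' : ∀ e ∈ E, e.1 ≠ e.2 ∧ e.1 < k + 1 ∧ e.2 < k + 1 := fun e he => by
      obtain ⟨a, b, c⟩ := h e (List.mem_cons_of_mem _ he)
      exact ⟨a, by omega, by omega⟩
    have hlt : ∀ x ∈ str (k + 1) E, x.1 < k ∧ k < x.2 := by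
      intro x hx
      obtain ⟨e', he', h1, h2, h3⟩ := mem_str E (k + 1) x hx
      obtain ⟨_, b, c⟩ := h e' (List.mem_cons_of_mem _ he')
      refine ⟨?_, by omega⟩
      rcases h1 with h1 | h1 <;> omega
    simp only [str, List.map_cons, List.nodup_cons, List.mem_cons, List.mem_map, not_or, not_exists,
      not_and]
    refine ⟨⟨?_, ?_⟩, ?_, ih (k + 1) h'⟩
    · rw [Sym2.eq_iff]
      rintro (h1 | h1)
      · exact h0.1 h1.1.symm
      · omega
    · intro x hx
      rw [Sym2.eq_iff]
      have := hlt x hx
      rintro (h1 | h1)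
      · omega
      · omega
    · intro x hx
      rw [Sym2.eq_iff]
      have := hlt x hx
      rintro (h1 | h1)
      · omega
      · omega

theorem simpleBip_sub2 (G : MGraph) (h : WF G) : SimpleBip (sub2 G) := by
  have hE : ∀ e ∈ G.2, e.1 ≠ e.2 ∧ e.1 < fresh G ∧ e.2 < fresh G := by
    intro e he
    have := h.2.2 e he
    exact ⟨this.2.2, lt_fresh G this.1, lt_fresh G this.2.1⟩
  refine ⟨str_nodup G.2 (fresh G) hE, fun x => decide (x < fresh G), ?_⟩
  intro x hx
  obtain ⟨e, he, h1, h2, h3⟩ := mem_str G.2 (fresh G) x hx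
  have := hE e he
  have h4 : x.1 < fresh G := by rcases h1 with h1 | h1 <;> omega
  simp [h4, h2]

theorem conn_str : ∀ (E : List (ℕ × ℕ)) (k : ℕ),
    (∀ a b, (a, b) ∈ E → Relation.EqvGen (fun a b => (a, b) ∈ str k E) a b) ∧
    (∀ z, k ≤ z → z < k + E.length → ∃ e ∈ E,
      Relation.EqvGen (fun a b => (a, b) ∈ str k E) e.1 z) := by
  intro E
  induction E with
  | nil =>
    intro k
    refine ⟨fun a b h => by simp at h, fun z h1 h2 => ?_⟩
    simp only [List.length_nil] at h2
    omega
  | cons e E ih =>
    intro k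
    obtain ⟨h1, h2⟩ := ih (k + 1)
    have hmono : ∀ a b, Relation.EqvGen (fun a b => (a, b) ∈ str (k + 1) E) a b →
        Relation.EqvGen (fun a b => (a, b) ∈ str k (e :: E)) a b := by
      apply eqvGen_mono'
      intro a b hab
      exact .rel _ _ (List.mem_cons_of_mem _ (List.mem_cons_of_mem _ hab))
    have r1 : Relation.EqvGen (fun a b => (a, b) ∈ str k (e :: E)) e.1 k :=
      .rel _ _ (List.mem_cons_of_mem _ (List.mem_cons_self ..))
    have r2 : Relation.EqvGen (fun a b => (a, b) ∈ str k (e :: E)) e.2 k :=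
      .rel _ _ (List.mem_cons_self ..)
    refine ⟨?_, ?_⟩
    · intro a b hab
      rcases List.mem_cons.1 hab with h | h
      · subst h
        exact .trans _ _ _ r1 (.symm _ _ r2)
      · exact hmono _ _ (h1 a b h)
    · intro z hz1 hz2
      rcases hz1.eq_or_lt with h | h
      · exact ⟨e, List.mem_cons_self .., h ▸ r1⟩
      · simp only [List.length_cons] at hz2
        obtain ⟨e', he', h3⟩ := h2 z h (by omega)
        exact ⟨e', List.mem_cons_of_mem _ he', hmono _ _ h3⟩

theorem conn_sub2 (G : MGraph) (h : IsConnGraph G) : IsConnGraph (sub2 G) := by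
  have hWF := wf_of_conn h
  obtain ⟨h1, h2, h3, h4⟩ := h
  refine ⟨fun h0 => h1 (List.append_eq_nil_iff.1 h0).1, ?_, ?_, ?_⟩
  · refine List.Nodup.append h2 (List.nodup_range.map (fun a b hab => by
      simpa using hab)) ?_
    intro x hx hx'
    obtain ⟨t, _, rfl⟩ := List.mem_map.1 hx'
    have := lt_fresh G hx
    omega
  · intro x hx
    obtain ⟨e, he, g1, g2, g3⟩ := mem_str G.2 (fresh G) x hx
    obtain ⟨a, b, c⟩ := h3 e he
    have hx1 : x.1 ∈ G.1 := by rcases g1 with g1 | g1 <;> rw [g1] <;> assumption
    refine ⟨List.mem_append_left _ hx1, List.mem_append_right _ ?_, ?_⟩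
    · exact List.mem_map.2 ⟨x.2 - fresh G, List.mem_range.2 (by omega), by omega⟩
    · have := lt_fresh G hx1
      omega
  · rw [spanConn_univ_iff, conn_iff] at h4 ⊢
    obtain ⟨c1, c2⟩ := conn_str G.2 (fresh G)
    have hmono : ∀ a b, Relation.EqvGen (fun a b => (a, b) ∈ G.2) a b →
        Relation.EqvGen (fun a b => (a, b) ∈ (sub2 G).2) a b :=
      eqvGen_mono' c1
    have hv := vtx_mem G h1
    have key : ∀ u ∈ (sub2 G).1, Relation.EqvGen (fun a b => (a, b) ∈ (sub2 G).2) (vtx G) u := by
      intro u hu
      rcases List.mem_append.1 (show u ∈ G.1 ++ (List.range G.2.length).map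
        (fun t => fresh G + t) from hu) with hu | hu
      · exact hmono _ _ (h4 _ hv _ hu)
      · obtain ⟨t, ht, rfl⟩ := List.mem_map.1 hu
        rw [List.mem_range] at ht
        obtain ⟨e, he, h5⟩ := c2 (fresh G + t) (by omega) (by omega)
        exact .trans _ _ _ (hmono _ _ (h4 _ hv _ (h3 e he).1)) h5
    intro u hu v hv'
    exact .trans _ _ _ (.symm _ _ (key u hu)) (key v hv')

theorem str_eq_flatMap : ∀ (E : List (ℕ × ℕ)) (k s : ℕ), str (k + s) E
    = (E.zipIdx s).flatMap (fun x => [(x.1.2, k + x.2), (x.1.1, k + x.2)]) := by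
  intro E
  induction E with
  | nil => intro k s; rfl
  | cons e E ih =>
    intro k s
    rw [List.zipIdx_cons, List.flatMap_cons, ← ih k (s + 1)]
    rfl

theorem poly_sub2 {α : Type} [TEnc α] {G : α → MGraph} (hG : Poly G) :
    Poly (fun a => sub2 (G a)) := by
  have hV : Poly (fun a => (G a).1) := Poly.fst hG
  have hE : Poly (fun a => (G a).2) := Poly.snd hG
  have hf : Poly (fun a => fresh (G a)) := Poly.succ (Poly.sum hV)
  refine Poly.pair (Poly.append hV ?_) ?_
  · exact Poly.map (F := fun a t => fresh (G a) + t) (UPoly.range (UPoly.length hE))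
      (Poly.add (hf.comp (Poly.fst Poly.id)) (Poly.snd Poly.id))
  · refine Poly.congr ?_ (fun a => (str_eq_flatMap (G a).2 (fresh (G a)) 0).symm)
    refine Poly.flatMap (F := fun a (x : (ℕ × ℕ) × ℕ) =>
      [(x.1.2, fresh (G a) + x.2), (x.1.1, fresh (G a) + x.2)]) (Poly.zipIdx hE) ?_
    have hx : Poly (fun y : α × ((ℕ × ℕ) × ℕ) => y.2) := Poly.snd Poly.id
    have hk : Poly (fun y : α × ((ℕ × ℕ) × ℕ) => fresh (G y.1) + y.2.2) :=
      Poly.add (hf.comp (Poly.fst Poly.id)) (Poly.snd hx)
    exact Poly.cons (Poly.pair (Poly.snd (Poly.fst hx)) hk)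
      (Poly.cons (Poly.pair (Poly.fst (Poly.fst hx)) hk) (Poly.const []))

end Pool.Agent.NPC.Y607UC
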